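import Pool.Agent.H95.CM.Targets

set_option autoImplicit false
set_option linter.unusedVariables false
set_option linter.unusedSectionVars false

open MeasureTheory Set Filter NumberField
open scoped Real nonZeroDivisors
open Pool.Agent.H65.CM4
open Pool.Agent.H95.CM
open Pool.Agent.H31.CN (IsLf)
open Pool.Agent.H61.FM (CC pv)

namespace Pool.Agent.H34.CM4

section

variable {k : Type} [Field k] [NumberField k] [IsTotallyReal k]

theorem rsx_rd {b t : ℕ} {B y₀ y : ℝ} {M : La k} {Q : QF k} (hB : 1 ≤ B) (hy0 : 0 < y₀)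
    (hy1 : y₀ ≤ y) (hy2 : y ≤ 2 * y₀) (h : Rd b B y₀ M Q) : Rd (b * t) (4 * B) y M Q := by
  have hB0 : 0 < B := by linarith
  have hy : 0 < y := by linarith
  obtain ⟨e, he0, he1, he2⟩ := h.bal
  have hpos : ∀ v : Pl k, 0 < rv v (Q.1 : k) := fun v => lt_of_lt_of_le (by positivity) (he2 v).1
  refine ⟨?_, ⟨e, he0, ?_, fun v => ⟨?_, ?_⟩⟩, fun v => ?_, fun v => ⟨?_, ?_⟩⟩
  · intro u
    have h1 : ((b * t : ℕ) : 𝓞 k) • u = (t : 𝓞 k) • ((b : 𝓞 k) • u) := by
      rw [smul_smul, Nat.cast_mul, mul_comm]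
    rw [h1]
    exact M.smul_mem _ (h.mem u)
  · calc e ≤ B * y₀ := he1
      _ ≤ 4 * B * y := by
        have h1 : B * y₀ ≤ B * y := by gcongr
        have h2 : 0 < B * y := by positivity
        linarith
  · refine le_trans ?_ (he2 v).1
    gcongr
    linarith
  · refine (he2 v).2.trans ?_
    gcongr
    linarith
  · refine (h.b v).trans ?_
    have := hpos v
    gcongr
    linarith
  · refine le_trans ?_ (h.d v).1
    rw [div_le_div_iff₀ (by positivity) hB0]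
    have h1 : y ^ 2 ≤ (2 * y₀) ^ 2 := by gcongr
    have h2 : y ^ 2 * B ≤ (2 * y₀) ^ 2 * B := by gcongr
    linarith
  · refine (h.d v).2.trans ?_
    have h1 : B * y₀ ^ 2 ≤ B * y ^ 2 := by gcongr
    have h2 : 0 < B * y ^ 2 := by positivity
    linarith

theorem rsx_ob {K : Type} [Field K] [NumberField K] [IsTotallyComplex K] [Algebra k K]
    [Algebra.IsQuadraticExtension k K] {b t : ℕ} {I : Ideal (𝓞 K)} {α β : K} {μ : k} {M : La k}
    {Q : QF k} (h : Ob k b I α β μ M Q) : Ob k (b * t) I α β μ M Q := by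
  refine ⟨?_, h.lat, h.mem, h.inj, h.pos, h.nrm, ?_⟩
  · intro u
    have h1 : ((b * t : ℕ) : 𝓞 k) • u = (t : 𝓞 k) • ((b : 𝓞 k) • u) := by
      rw [smul_smul, Nat.cast_mul, mul_comm]
    rw [h1]
    exact M.smul_mem _ (h.bM u)
  · have h1 : ((b * t : ℕ) : 𝓞 k) = (t : 𝓞 k) * (b : 𝓞 k) := by
      rw [Nat.cast_mul, mul_comm]
    rw [h1]
    exact Ideal.mul_mem_left _ _ h.cop

end

theorem pf_RSX (hRDX : T_RDX) : T_RSX := by
  intro k _ _ _
  obtain ⟨b, B, hb, hB, hR⟩ := hRDX k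
  refine ⟨b, 4 * B, hb, by linarith, ?_⟩
  intro b' hb' hbb K _ _ _ _ _ y hy1 hy2
  obtain ⟨t, rfl⟩ := hbb
  have hd : (0 : ℝ) < |(discr K : ℝ)| := by
    rw [abs_pos]
    exact_mod_cast discr_ne_zero K
  have hy0 : (0 : ℝ) < |(discr K : ℝ)| ^ (1 / (2 * dg k : ℝ)) := Real.rpow_pos_of_pos hd _
  have hI : ∀ c : ClassGroup (𝓞 K), ∃ I : (Ideal (𝓞 K))⁰, ClassGroup.mk0 I = c :=
    fun c => ClassGroup.mk0_surjective c
  choose I hIc using hI
  have hne : ∀ c, (I c : Ideal (𝓞 K)) ≠ ⊥ := fun c => nonZeroDivisors.coe_ne_zero (I c)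
  choose α β μ M Q hO hD using fun c => hR K (I c : Ideal (𝓞 K)) (hne c)
  exact ⟨⟨I, α, β, μ, M, Q, hIc, fun c => rsx_ob (hO c),
    fun c => rsx_rd hB hy0 hy1 hy2 (hD c)⟩⟩

end Pool.Agent.H34.CM4
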