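import Pool.Agent.H89.CM4.Targets2b

/-!
# MP_52e316_nt, board `cm4_modules`: row B_FZC
-/

set_option autoImplicit false
set_option linter.unusedVariables false
set_option linter.unusedSectionVars false

open MeasureTheory Set Filter NumberField NumberField.InfinitePlace Pool.Agent.H65.CM4
  Pool.Agent.H89.CM4
open scoped Real

namespace Pool.Agent.H34.CM4

variable (k : Type) [Field k] [NumberField k] [IsTotallyReal k]

theorem pf_FZC (hECC : T_ECC k) (hIXC : T_IXC k) (hIDC : T_IDC k) : T_FZC k := by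
  classical
  intro B hB
  obtain ⟨K, hK, hE⟩ := hECC B hB
  refine ⟨K, hK, ?_⟩
  intro b r A M s α I L X Y ζ hb hM hr hI hL hs hX hY hR
  obtain ⟨-, hSq, -⟩ := hIDC
  obtain ⟨hIX0, -, hIX⟩ := hIXC b M hb hM
  have hI1 := (hSq b A I).1 hI
  have hSI : Sf b I := ⟨hI1.1, hI1.2.1, hI1.2.2.1⟩
  unfold cf
  apply DifferentiableAt.fun_sum
  intro g hg
  obtain ⟨hg1, hg2⟩ := Finset.mem_filter.1 hg
  have hg3 := (hSq b A g).1 hg1
  have hg4 := (hSq b A (I * g)).1 hg2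
  apply DifferentiableAt.const_mul
  apply DifferentiableAt.fun_sum
  intro J hJ
  apply DifferentiableAt.const_mul
  have hJg : J ∣ g := (Finset.mem_filter.1 hJ).2
  have hgJ : g ≤ J := Ideal.dvd_iff_le.1 hJg
  have hJ0 : J ≠ ⊥ := by
    rintro rfl
    exact hg3.1 (le_bot_iff.1 hgJ)
  have hSJ : Sf b J := by
    refine ⟨hJ0, hg3.2.1.squarefree_of_dvd hJg, ?_⟩
    rw [eq_top_iff, ← hg3.2.2.1]
    exact sup_le_sup_right hgJ _
  have hIJ : I ⊔ J = ⊤ := by
    have h1 := (squarefree_mul_iff.1 hg4.2.1).1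
    have h2 : I ⊔ J ∣ I := Ideal.dvd_iff_le.2 le_sup_left
    have h3 : I ⊔ J ∣ g := (Ideal.dvd_iff_le.2 (le_sup_right : J ≤ I ⊔ J)).trans hJg
    exact Ideal.isUnit_iff.1 (h1 h2 h3)
  refine hE r (M ⊓ L ⊓ kO J) s X Y ζ hr ?_ hs hX hY hR
  rw [(hIX I J L hSI hSJ hIJ hL).2]
  have hnI : Ideal.absNorm I ≠ 0 := by
    rw [Ne, Ideal.absNorm_eq_zero_iff]
    exact hI1.1
  have hnJ : Ideal.absNorm J ≠ 0 := by
    rw [Ne, Ideal.absNorm_eq_zero_iff]
    exact hJ0
  positivity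

end Pool.Agent.H34.CM4
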