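import Pool.Agent.H65.CM4.Targets1

set_option autoImplicit false
set_option linter.unusedVariables false

open MeasureTheory Set Filter NumberField NumberField.InfinitePlace Pool.Agent.H65.CM4
open scoped Real

namespace Pool.Agent.H34.CM4

variable (k : Type) [Field k] [NumberField k] [IsTotallyReal k]

omit [IsTotallyReal k] in
theorem idc_fin (A : ℝ) : {I : Ideal (𝓞 k) | nm I ≤ A}.Finite := by
  refine (Ideal.finite_setOfPred_absNorm_le (S := 𝓞 k) ⌊A⌋₊).subset ?_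
  intro I hI
  exact Nat.le_floor hI

omit [IsTotallyReal k] in
theorem idc_mem (A : ℝ) (I : Ideal (𝓞 k)) : I ∈ Id k A ↔ I ≠ ⊥ ∧ nm I ≤ A := by
  have h : {I : Ideal (𝓞 k) | I ≠ ⊥ ∧ nm I ≤ A}.Finite :=
    (idc_fin k A).subset fun I hI => hI.2
  unfold Pool.Agent.H65.CM4.Id
  rw [dif_pos h, Set.Finite.mem_toFinset]
  exact Iff.rfl

omit [IsTotallyReal k] in
theorem idc_sq (b : ℕ) (A : ℝ) (I : Ideal (𝓞 k)) :
    I ∈ Sq b A ↔ I ≠ ⊥ ∧ Squarefree I ∧ I ⊔ Ideal.span {(b : 𝓞 k)} = ⊤ ∧ nm I ≤ A := by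
  have h : {I : Ideal (𝓞 k) | I ≠ ⊥ ∧ Squarefree I ∧ I ⊔ Ideal.span {(b : 𝓞 k)} = ⊤ ∧
      nm I ≤ A}.Finite :=
    (idc_fin k A).subset fun I hI => hI.2.2.2
  unfold Sq
  rw [dif_pos h, Set.Finite.mem_toFinset]
  exact Iff.rfl

omit [IsTotallyReal k] in
theorem idc_card : ∃ C : ℝ, 1 ≤ C ∧ ∀ A : ℝ, 1 ≤ A → ((Id k A).card : ℝ) ≤ C * A := by
  have h1 := (NumberField.Ideal.tendsto_norm_le_div_atTop k).comp tendsto_natCast_atTop_atTop
  obtain ⟨C, hC⟩ := h1.bddAbove_range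
  have hb : ∀ n : ℕ, (Nat.card {I : Ideal (𝓞 k) // (Ideal.absNorm I : ℝ) ≤ (n : ℝ)} : ℝ) / n ≤ C :=
    fun n => hC ⟨n, rfl⟩
  refine ⟨max C 1, le_max_right _ _, fun A hA => ?_⟩
  have hn1 : 1 ≤ ⌊A⌋₊ := Nat.le_floor (by simpa using hA)
  have hn0 : (0 : ℝ) < (⌊A⌋₊ : ℝ) := by exact_mod_cast hn1
  have h2 := hb ⌊A⌋₊
  rw [div_le_iff₀ hn0] at h2
  have hfin : {I : Ideal (𝓞 k) | (Ideal.absNorm I : ℝ) ≤ (⌊A⌋₊ : ℝ)}.Finite :=
    idc_fin k (⌊A⌋₊ : ℝ)
  have h3 : ((Id k A).card : ℝ) ≤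
      (Nat.card {I : Ideal (𝓞 k) // (Ideal.absNorm I : ℝ) ≤ (⌊A⌋₊ : ℝ)} : ℝ) := by
    have h4 : Nat.card {I : Ideal (𝓞 k) // (Ideal.absNorm I : ℝ) ≤ (⌊A⌋₊ : ℝ)} =
        hfin.toFinset.card := by
      rw [← Set.ncard_eq_toFinset_card _ hfin, ← Nat.card_coe_set_eq]
      rfl
    rw [h4]
    exact_mod_cast Finset.card_le_card (fun I hI => by
      rw [Set.Finite.mem_toFinset]
      exact_mod_cast Nat.le_floor ((idc_mem k A I).1 hI).2)
  have h5 : (⌊A⌋₊ : ℝ) ≤ A := Nat.floor_le (by linarith)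
  calc ((Id k A).card : ℝ) ≤ C * (⌊A⌋₊ : ℝ) := h3.trans h2
    _ ≤ max C 1 * (⌊A⌋₊ : ℝ) := mul_le_mul_of_nonneg_right (le_max_left _ _) hn0.le
    _ ≤ max C 1 * A := mul_le_mul_of_nonneg_left h5 (le_trans zero_le_one (le_max_right _ _))

theorem pf_IDC (hEMB : T_EMB k) : T_IDC k := by
  refine ⟨idc_mem k, idc_sq k, ?_⟩
  obtain ⟨C, hC1, hC⟩ := idc_card k
  refine ⟨4 * C, by linarith, fun A hA => ⟨?_, ?_⟩⟩
  · refine (hC A hA).trans ?_
    have : 0 ≤ C * A := mul_nonneg (by linarith) (by linarith)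
    linarith
  · have h1 : ∀ I ∈ Id k A, Nat.log 2 (Ideal.absNorm I) ∈ Finset.range (Nat.log 2 ⌊A⌋₊ + 1) := by
      intro I hI
      rw [Finset.mem_range, Nat.lt_succ_iff]
      exact Nat.log_mono_right (Nat.le_floor ((idc_mem k A I).1 hI).2)
    rw [← Finset.sum_fiberwise_of_maps_to h1]
    have h2 : ∀ j ∈ Finset.range (Nat.log 2 ⌊A⌋₊ + 1),
        ∑ I ∈ (Id k A).filter (fun I => Nat.log 2 (Ideal.absNorm I) = j), 1 / nm I ≤ 2 * C := by
      intro j _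
      have h3 : ∀ I ∈ (Id k A).filter (fun I => Nat.log 2 (Ideal.absNorm I) = j),
          1 / nm I ≤ 1 / (2 : ℝ) ^ j := by
        intro I hI
        rw [Finset.mem_filter] at hI
        have h4 : Ideal.absNorm I ≠ 0 := by
          rw [Ne, Ideal.absNorm_eq_zero_iff]
          exact ((idc_mem k A I).1 hI.1).1
        have h5 : 2 ^ j ≤ Ideal.absNorm I := by
          rw [← hI.2]
          exact Nat.pow_log_le_self 2 h4
        have h6 : (2 : ℝ) ^ j ≤ nm I := by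
          unfold nm
          exact_mod_cast h5
        exact one_div_le_one_div_of_le (by positivity) h6
      refine (Finset.sum_le_card_nsmul _ _ _ h3).trans ?_
      rw [nsmul_eq_mul]
      have h7 : (((Id k A).filter (fun I => Nat.log 2 (Ideal.absNorm I) = j)).card : ℝ) ≤
          C * 2 ^ (j + 1) := by
        refine le_trans ?_ (hC (2 ^ (j + 1)) (one_le_pow₀ (by norm_num)))
        exact_mod_cast Finset.card_le_card (fun I hI => by
          rw [Finset.mem_filter] at hI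
          rw [idc_mem]
          refine ⟨((idc_mem k A I).1 hI.1).1, ?_⟩
          have h8 : Ideal.absNorm I < 2 ^ (j + 1) := by
            rw [← hI.2]
            exact Nat.lt_pow_succ_log_self (by norm_num) _
          unfold nm
          exact_mod_cast h8.le)
      calc (((Id k A).filter (fun I => Nat.log 2 (Ideal.absNorm I) = j)).card : ℝ) *
            (1 / (2 : ℝ) ^ j) ≤ (C * 2 ^ (j + 1)) * (1 / (2 : ℝ) ^ j) :=
            mul_le_mul_of_nonneg_right h7 (by positivity)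
        _ = 2 * C := by
            rw [pow_succ]
            field_simp
    refine (Finset.sum_le_card_nsmul _ _ _ h2).trans ?_
    rw [nsmul_eq_mul, Finset.card_range]
    have hn1 : 1 ≤ ⌊A⌋₊ := Nat.le_floor (by simpa using hA)
    have hn0 : (0 : ℝ) < (⌊A⌋₊ : ℝ) := by exact_mod_cast hn1
    have h9 : (Nat.log 2 ⌊A⌋₊ : ℝ) * Real.log 2 ≤ Real.log A := by
      rw [← Real.log_pow]
      apply Real.log_le_log (by positivity)
      have h10 : (2 : ℝ) ^ Nat.log 2 ⌊A⌋₊ ≤ (⌊A⌋₊ : ℝ) := by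
        exact_mod_cast Nat.pow_log_le_self 2 (by omega)
      exact h10.trans (Nat.floor_le (by linarith))
    have h11 : (1 / 2 : ℝ) ≤ Real.log 2 := by
      have := Real.log_two_gt_d9
      linarith
    have h12 : (Nat.log 2 ⌊A⌋₊ : ℝ) ≤ 2 * Real.log A := by
      have h13 : (Nat.log 2 ⌊A⌋₊ : ℝ) * (1 / 2) ≤ (Nat.log 2 ⌊A⌋₊ : ℝ) * Real.log 2 :=
        mul_le_mul_of_nonneg_left h11 (Nat.cast_nonneg _)
      linarith
    have h14 : 0 ≤ Real.log A := Real.log_nonneg hA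
    push_cast
    have h15 : ((Nat.log 2 ⌊A⌋₊ : ℝ) + 1) * (2 * C) ≤ (2 * Real.log A + 1) * (2 * C) :=
      mul_le_mul_of_nonneg_right (by linarith) (by linarith)
    refine h15.trans ?_
    have h16 : 0 ≤ C * Real.log A := mul_nonneg (by linarith) h14
    linarith

end Pool.Agent.H34.CM4
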