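import Pool.Agent.H65.CM4.Targets1

set_option autoImplicit false
set_option linter.unusedVariables false

open MeasureTheory Set Filter NumberField NumberField.InfinitePlace Pool.Agent.H65.CM4
open scoped Real

namespace Pool.Agent.H34.CM4

variable (k : Type) [Field k] [NumberField k] [IsTotallyReal k]

/-- the index type of the integral basis -/
abbrev lowI : Type := Module.Free.ChooseBasisIndex ℤ (𝓞 k)

/-- the sum of the absolute values of the conjugates of the integral basis -/
noncomputable def lowC : ℝ :=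
  1 + ∑ i : lowI k, ∑ v : Pl k, |rv v ((RingOfIntegers.basis k i : 𝓞 k) : k)|

theorem lowC_one : 1 ≤ lowC k := by
  unfold lowC
  have : 0 ≤ ∑ i : lowI k, ∑ v : Pl k, |rv v ((RingOfIntegers.basis k i : 𝓞 k) : k)| :=
    Finset.sum_nonneg fun i _ => Finset.sum_nonneg fun v _ => abs_nonneg _
  linarith

theorem low_bound (t : lowI k → ℝ) (M : ℝ) (hM : 0 ≤ M) (ht : ∀ i, |t i| ≤ M) (v : Pl k) :
    |∑ i, t i * rv v ((RingOfIntegers.basis k i : 𝓞 k) : k)| ≤ M * lowC k := by
  refine (Finset.abs_sum_le_sum_abs _ _).trans ?_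
  have h1 : ∀ i ∈ (Finset.univ : Finset (lowI k)),
      |t i * rv v ((RingOfIntegers.basis k i : 𝓞 k) : k)| ≤
        M * ∑ v : Pl k, |rv v ((RingOfIntegers.basis k i : 𝓞 k) : k)| := by
    intro i _
    rw [abs_mul]
    refine mul_le_mul (ht i) ?_ (abs_nonneg _) hM
    exact Finset.single_le_sum (f := fun v => |rv v ((RingOfIntegers.basis k i : 𝓞 k) : k)|)
      (fun v _ => abs_nonneg _) (Finset.mem_univ v)
  refine (Finset.sum_le_sum h1).trans ?_
  rw [← Finset.mul_sum]
  apply mul_le_mul_of_nonneg_left _ hM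
  unfold lowC
  linarith

theorem low_rv (a : lowI k → ℤ) (v : Pl k) :
    rv v ((∑ i, a i • RingOfIntegers.basis k i : 𝓞 k) : k) =
      ∑ i, (a i : ℝ) * rv v ((RingOfIntegers.basis k i : 𝓞 k) : k) := by
  have h1 : ((∑ i, a i • RingOfIntegers.basis k i : 𝓞 k) : k) =
      ∑ i, (a i : k) * ((RingOfIntegers.basis k i : 𝓞 k) : k) := by
    change algebraMap (𝓞 k) k (∑ i, a i • RingOfIntegers.basis k i) =
      ∑ i, (a i : k) * algebraMap (𝓞 k) k (RingOfIntegers.basis k i)
    rw [map_sum]
    refine Finset.sum_congr rfl fun i _ => ?_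
    rw [zsmul_eq_mul, map_mul, map_intCast]
  rw [h1, map_sum]
  refine Finset.sum_congr rfl fun i _ => ?_
  rw [map_mul, map_intCast]

theorem low_cover (p : Pl k → ℝ) : ∃ x : 𝓞 k, ∀ v, |rv v (x : k) - p v| ≤ lowC k := by
  classical
  let q : mixedEmbedding.mixedSpace k := (fun w => p w.1, fun _ => 0)
  set t : lowI k → ℝ := fun i => (mixedEmbedding.latticeBasis k).repr q i with ht
  have hq : ∑ i, t i • mixedEmbedding.latticeBasis k i = q :=
    (mixedEmbedding.latticeBasis k).sum_repr q
  have hp : ∀ v : Pl k, p v = ∑ i, t i * rv v ((RingOfIntegers.basis k i : 𝓞 k) : k) := by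
    intro v
    have h1 := congrFun (congrArg Prod.fst hq) ⟨v, IsTotallyReal.isReal v⟩
    have h2 : (q.1 ⟨v, IsTotallyReal.isReal v⟩ : ℝ) = p v := rfl
    rw [h2] at h1
    rw [← h1, Prod.fst_sum, Finset.sum_apply]
    refine Finset.sum_congr rfl fun i _ => ?_
    rw [mixedEmbedding.latticeBasis_apply, integralBasis_apply]
    rfl
  refine ⟨∑ i, (round (t i)) • RingOfIntegers.basis k i, fun v => ?_⟩
  rw [low_rv, hp v, ← Finset.sum_sub_distrib]
  have h3 : ∀ i ∈ (Finset.univ : Finset (lowI k)),
      ((round (t i) : ℤ) : ℝ) * rv v ((RingOfIntegers.basis k i : 𝓞 k) : k) -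
        t i * rv v ((RingOfIntegers.basis k i : 𝓞 k) : k) =
      (((round (t i) : ℤ) : ℝ) - t i) * rv v ((RingOfIntegers.basis k i : 𝓞 k) : k) := by
    intro i _
    ring
  rw [Finset.sum_congr rfl h3]
  have h4 := low_bound k (fun i => ((round (t i) : ℤ) : ℝ) - t i) 1 zero_le_one (fun i => by
    rw [abs_sub_comm]
    have := abs_sub_round (t i)
    linarith) v
  rw [one_mul] at h4
  exact h4

theorem pf_LOW (hEMB : T_EMB k) : T_LOW k := by
  classical
  have hC := lowC_one k
  have hC0 : 0 < lowC k := by linarith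
  refine ⟨(1 / lowC k) ^ dg k, lowC k, by positivity, hC, low_cover k, ?_⟩
  intro X hX
  set N : ℕ := ⌊X / lowC k⌋₊ with hN
  have hNX : (N : ℝ) * lowC k ≤ X := by
    rw [← le_div_iff₀ hC0]
    exact Nat.floor_le (by positivity)
  have hNX' : X / lowC k < N + 1 := Nat.lt_floor_add_one _
  set B : Finset (lowI k → ℤ) := Fintype.piFinset fun _ => Finset.Icc (-(N : ℤ)) N with hB
  have hinj : Function.Injective fun a : lowI k → ℤ => ∑ i, a i • RingOfIntegers.basis k i := by
    intro a b hab
    have h1 : (RingOfIntegers.basis k).equivFun.symm a = (RingOfIntegers.basis k).equivFun.symm b := by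
      rw [Module.Basis.equivFun_symm_apply, Module.Basis.equivFun_symm_apply]
      exact hab
    exact (RingOfIntegers.basis k).equivFun.symm.injective h1
  have hcard : (B.image fun a : lowI k → ℤ => ∑ i, a i • RingOfIntegers.basis k i).card =
      (2 * N + 1) ^ dg k := by
    rw [Finset.card_image_of_injective _ hinj, hB, Fintype.card_piFinset, Finset.prod_const,
      Finset.card_univ]
    have h1 : Fintype.card (lowI k) = dg k := by
      rw [← Module.finrank_eq_card_chooseBasisIndex ℤ (𝓞 k), RingOfIntegers.rank]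
      rfl
    rw [h1, Int.card_Icc]
    congr 1
    omega
  refine ⟨B.image fun a : lowI k → ℤ => ∑ i, a i • RingOfIntegers.basis k i, ?_, ?_, ?_⟩
  · intro x hx v
    rw [Finset.mem_image] at hx
    obtain ⟨a, ha, rfl⟩ := hx
    rw [low_rv]
    refine (low_bound k (fun i => (a i : ℝ)) N (Nat.cast_nonneg _) (fun i => ?_) v).trans hNX
    rw [hB, Fintype.mem_piFinset] at ha
    have h2 := Finset.mem_Icc.1 (ha i)
    rw [abs_le]
    constructor
    · exact_mod_cast h2.1
    · exact_mod_cast h2.2
  · rw [hcard]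
    exact Nat.one_le_pow _ _ (by omega)
  · rw [hcard, ← mul_pow]
    push_cast
    apply pow_le_pow_left₀ (by positivity)
    have h3 : 1 / lowC k * X = X / lowC k := by ring
    rw [h3]
    have : (0 : ℝ) ≤ N := Nat.cast_nonneg _
    linarith

end Pool.Agent.H34.CM4
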